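import Mathlib

set_option autoImplicit false

open Filter Topology

namespace Pool.Agent.Results.MP_dc22f7_an.IterLaguerre

/-- The maximum modulus `M(r) = max_{|z| = r} |φ(z)|`. -/
noncomputable def maxMod (φ : ℂ → ℂ) (r : ℝ) : ℝ :=
  sSup ((fun z => ‖φ z‖) '' Metric.sphere (0 : ℂ) r)

/-- The growth order `limsup_{r → ∞} log log M(r) / log r`. -/
noncomputable def growthOrder (φ : ℂ → ℂ) : EReal :=
  limsup (fun r : ℝ => ((Real.log (Real.log (maxMod φ r)) / Real.log r : ℝ) : EReal)) atTop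

/-- The iterated Laguerre expressions: `lag φ x n k = T_k^{(n)}(φ(x))`. -/
noncomputable def lag (φ : ℂ → ℂ) (x : ℝ) : ℕ → ℕ → ℝ
  | 0, k => (iteratedDeriv k φ x).re ^ 2
      - (iteratedDeriv (k - 1) φ x).re * (iteratedDeriv (k + 1) φ x).re
  | n + 1, k => lag φ x n k ^ 2 - lag φ x n (k - 1) * lag φ x n (k + 1)

/-- The counterexample. -/
noncomputable def phi (z : ℂ) : ℂ := Complex.exp z * ((z + 20) * (15 * z + 1) * (8 * z + 1))

lemma iter_phi (k : ℕ) : iteratedDeriv k phi = fun z => Complex.exp z *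
    ((20 + 461 * k + 2423 * k * (k - 1) + 120 * k * (k - 1) * (k - 2))
      + (461 + 4846 * k + 360 * k * (k - 1)) * z + (2423 + 360 * k) * z ^ 2 + 120 * z ^ 3) := by
  induction k with
  | zero =>
    funext z
    simp only [iteratedDeriv_zero, phi]
    push_cast
    ring
  | succ k ih =>
    rw [iteratedDeriv_succ, ih]
    funext z
    have h1 : HasDerivAt (fun z : ℂ =>
        ((20 + 461 * (k:ℂ) + 2423 * k * (k - 1) + 120 * k * (k - 1) * (k - 2))
      + (461 + 4846 * k + 360 * k * (k - 1)) * z + (2423 + 360 * k) * z ^ 2 + 120 * z ^ 3))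
      ((461 + 4846 * k + 360 * k * (k - 1)) + (2423 + 360 * k) * (2 * z) + 120 * (3 * z ^ 2)) z := by
      have a1 := (hasDerivAt_id z).const_mul (461 + 4846 * (k:ℂ) + 360 * k * (k - 1))
      have a2 := (hasDerivAt_pow 2 z).const_mul (2423 + 360 * (k:ℂ))
      have a3 := (hasDerivAt_pow 3 z).const_mul (120 : ℂ)
      have := ((a1.const_add (20 + 461 * (k:ℂ) + 2423 * k * (k - 1) + 120 * k * (k - 1) * (k - 2))).add a2).add a3
      refine this.congr_deriv ?_
      simp
    have h2 := (Complex.hasDerivAt_exp z).mul h1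
    have h3 := h2.deriv
    refine Eq.trans ?_ (h3.trans ?_)
    · rfl
    · push_cast
      ring

lemma iter_phi_zero (k : ℕ) : iteratedDeriv k phi 0 =
    ((20 + 461 * (k:ℝ) + 2423 * k * (k - 1) + 120 * k * (k - 1) * (k - 2) : ℝ) : ℂ) := by
  rw [iter_phi]
  simp

lemma lag_neg : lag phi 0 5 6 < 0 := by
  have h : ∀ k : ℕ, (iteratedDeriv k phi ((0:ℝ):ℂ)).re =
      20 + 461 * (k:ℝ) + 2423 * k * (k - 1) + 120 * k * (k - 1) * (k - 2) := by
    intro k
    rw [Complex.ofReal_zero, iter_phi_zero, Complex.ofReal_re]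
  simp only [lag, h]
  norm_num

lemma norm_phi_le (z : ℂ) : ‖phi z‖ ≤ Real.exp (25 * ‖z‖ + 20) := by
  have h0 := norm_nonneg z
  have h1 : ‖Complex.exp z‖ ≤ Real.exp ‖z‖ := by
    rw [Complex.norm_exp]
    exact Real.exp_le_exp.2 ((le_abs_self _).trans (Complex.abs_re_le_norm z))
  have h2 : ‖z + 20‖ ≤ Real.exp (‖z‖ + 20) := by
    have := norm_add_le z 20
    have h := Real.add_one_le_exp (‖z‖ + 20)
    simp at this
    linarith
  have h3 : ‖15 * z + 1‖ ≤ Real.exp (15 * ‖z‖) := by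
    have := norm_add_le (15 * z) 1
    have h := Real.add_one_le_exp (15 * ‖z‖)
    simp at this
    linarith
  have h4 : ‖8 * z + 1‖ ≤ Real.exp (8 * ‖z‖) := by
    have := norm_add_le (8 * z) 1
    have h := Real.add_one_le_exp (8 * ‖z‖)
    simp at this
    linarith
  have : 25 * ‖z‖ + 20 = ‖z‖ + ((‖z‖ + 20) + 15 * ‖z‖ + 8 * ‖z‖) := by ring
  rw [this, Real.exp_add, Real.exp_add, Real.exp_add, phi, norm_mul, norm_mul, norm_mul]
  gcongr

lemma maxMod_bounds (r : ℝ) (hr : 1 ≤ r) :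
    Real.exp 1 ≤ maxMod phi r ∧ maxMod phi r ≤ Real.exp (45 * r) := by
  have hb : ∀ y ∈ (fun z => ‖phi z‖) '' Metric.sphere (0 : ℂ) r, y ≤ Real.exp (45 * r) := by
    rintro y ⟨z, hz, rfl⟩
    have hz' : ‖z‖ = r := by simpa using hz
    refine (norm_phi_le z).trans (Real.exp_le_exp.2 ?_)
    rw [hz']; linarith
  have hmem : (r : ℂ) ∈ Metric.sphere (0 : ℂ) r := by
    simp; linarith
  constructor
  · refine le_trans ?_ (le_csSup ⟨_, hb⟩ ⟨r, hmem, rfl⟩)
    have : phi r = ((Real.exp r * ((r + 20) * (15 * r + 1) * (8 * r + 1)) : ℝ) : ℂ) := by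
      simp [phi]
    simp only
    rw [this, Complex.norm_real, Real.norm_eq_abs]
    refine le_trans ?_ (le_abs_self _)
    have h1 : Real.exp 1 ≤ Real.exp r := Real.exp_le_exp.2 hr
    have h2 : (1:ℝ) ≤ (r + 20) * (15 * r + 1) * (8 * r + 1) := by
      have : (1:ℝ) ≤ (r + 20) * (15 * r + 1) := by nlinarith
      nlinarith
    have := Real.exp_pos r
    nlinarith
  · exact csSup_le ⟨_, r, hmem, rfl⟩ hb

lemma order_phi : growthOrder phi ≤ 1 := by
  have ht : Tendsto (fun r : ℝ => ((Real.log 45 / Real.log r + 1 : ℝ) : EReal)) atTop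
      (𝓝 ((0 + 1 : ℝ) : EReal)) := by
    apply EReal.tendsto_coe.2
    exact (Tendsto.div_atTop tendsto_const_nhds Real.tendsto_log_atTop).add tendsto_const_nhds
  have := ht.limsup_eq
  have h1 : ((0 + 1 : ℝ) : EReal) = 1 := by simp
  rw [← h1, ← this]
  refine limsup_le_limsup ?_
  filter_upwards [eventually_ge_atTop (2:ℝ)] with r hr
  obtain ⟨a, b⟩ := maxMod_bounds r (by linarith)
  have hl : 0 < Real.log r := Real.log_pos (by linarith)
  have hM : 0 < maxMod phi r := (Real.exp_pos 1).trans_le a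
  have c1 : 1 ≤ Real.log (maxMod phi r) := by
    rw [Real.le_log_iff_exp_le hM]; exact a
  have c2 : Real.log (maxMod phi r) ≤ 45 * r := by
    rw [Real.log_le_iff_le_exp hM]; exact b
  have c3 : Real.log (Real.log (maxMod phi r)) ≤ Real.log 45 + Real.log r := by
    rw [← Real.log_mul (by norm_num) (by linarith)]
    exact Real.log_le_log (by linarith) c2
  apply EReal.coe_le_coe_iff.2
  rw [div_add_one hl.ne']
  exact div_le_div_of_nonneg_right c3 hl.le

theorem result : ∃ φ : ℂ → ℂ, Differentiable ℂ φ ∧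
    (∀ k : ℕ, (iteratedDeriv k φ 0).im = 0 ∧ 0 < (iteratedDeriv k φ 0).re) ∧
    growthOrder φ ≤ 1 ∧
    (∀ z : ℂ, φ z = 0 → z.im = 0 ∧ z.re < 0) ∧
    ∃ (n k : ℕ) (x : ℝ), n + 1 ≤ k ∧ 0 ≤ x ∧ lag φ x n k < 0 := by
  refine ⟨phi, ?_, ?_, order_phi, ?_, 5, 6, 0, le_rfl, le_rfl, lag_neg⟩
  · unfold phi
    fun_prop
  · intro k
    rw [iter_phi_zero, Complex.ofReal_im, Complex.ofReal_re]
    refine ⟨rfl, ?_⟩
    rcases k with _ | _ | k
    · norm_num
    · norm_num
    · push_cast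
      have : (0:ℝ) ≤ k := Nat.cast_nonneg k
      have e1 : (k:ℝ) + 1 + 1 - 1 = k + 1 := by ring
      have e2 : (k:ℝ) + 1 + 1 - 2 = k := by ring
      rw [e1, e2]
      positivity
  · intro z hz
    simp only [phi, mul_eq_zero, Complex.exp_ne_zero, false_or] at hz
    rcases hz with (h | h) | h
    · have : z = -20 := by linear_combination h
      rw [this]; norm_num
    · have : z = ((-1 / 15 : ℝ) : ℂ) := by push_cast; linear_combination h / 15
      rw [this, Complex.ofReal_im, Complex.ofReal_re]; norm_num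
    · have : z = ((-1 / 8 : ℝ) : ℂ) := by push_cast; linear_combination h / 8
      rw [this, Complex.ofReal_im, Complex.ofReal_re]; norm_num

end Pool.Agent.Results.MP_dc22f7_an.IterLaguerre
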